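import Pool.Agent.Lib.MP_6f2db1_al.Final

set_option autoImplicit false

/-!
# Polynomial conjugator length and doubly exponential area

There is a finite presentation with eight generators in which every null word of length at most `n`
is a product of conjugates of relators with conjugators of length at most a polynomial in `n`, while
some null words of length at most `8 j + 8` are not a product of fewer than `2 ^ (2 ^ j)` conjugates
of relators.
-/

namespace Pool.Agent.Results.MP_6f2db1_al.SharpGap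

open Pool.Agent.MP6f2db1 in
theorem result :
    ∃ (R : Finset (FreeGroup (Fin 8))) (D : ℕ),
      (∀ (n : ℕ) (w : List (Fin 8 × Bool)), w.length ≤ n →
        FreeGroup.mk w ∈ Subgroup.normalClosure (R : Set (FreeGroup (Fin 8))) →
        ∃ l : List (List (Fin 8 × Bool) × FreeGroup (Fin 8)),
          (∀ p ∈ l, (p.2 ∈ R ∨ p.2⁻¹ ∈ R) ∧ p.1.length ≤ D * (n + 1) ^ 5) ∧
          FreeGroup.mk w =
            (l.map (fun p => FreeGroup.mk p.1 * p.2 * (FreeGroup.mk p.1)⁻¹)).prod) ∧
      (∀ j : ℕ, ∃ w : List (Fin 8 × Bool), w.length ≤ 8 * j + 8 ∧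
        FreeGroup.mk w ∈ Subgroup.normalClosure (R : Set (FreeGroup (Fin 8))) ∧
        ∀ l : List (List (Fin 8 × Bool) × FreeGroup (Fin 8)),
          (∀ p ∈ l, p.2 ∈ R ∨ p.2⁻¹ ∈ R) →
          FreeGroup.mk w =
            (l.map (fun p => FreeGroup.mk p.1 * p.2 * (FreeGroup.mk p.1)⁻¹)).prod →
          2 ^ (2 ^ j) ≤ l.length) := by
  obtain ⟨c, hc⟩ := exists_conj
  obtain ⟨D, hD⟩ := exists_MM_le c
  refine ⟨R, D, fun n w hw hn => ?_, fun j => ?_⟩
  · obtain ⟨l, h1, h2⟩ := exists_list (hc n w hw (Psi_normalClosure hn))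
    exact ⟨l, fun p hp => ⟨(h1 p hp).1, (h1 p hp).2.trans (hD n)⟩, h2⟩
  · refine ⟨(wj j).toWord, norm_wj j, ?_, fun l hl h => ?_⟩
    · apply K_le_normalClosure (MM c (8 * j + 8))
      refine hc _ _ (norm_wj j) ?_
      rw [FreeGroup.mk_toWord, Psi_wj]
      exact ⟨_, rfl⟩
    · rw [FreeGroup.mk_toWord] at h
      exact area_wj j l hl h

end Pool.Agent.Results.MP_6f2db1_al.SharpGap
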